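import Pool.Agent.H143R3.MT.Stmts

/-!
Project H143-MT, task MT-B (`TaskB`): bridges of the Skellam walk, in kernel form.
-/

namespace Pool.Agent.H996R3.MTB

open MeasureTheory ProbabilityTheory Filter Topology
open scoped ENNReal NNReal
open Pool.Agent.H143R3.MT

theorem EX_zero (p : ℤ → ℝ≥0∞) (n : ℕ) (x : ℤ) : EX p n x (fun _ => 0) = 0 := by
  induction n generalizing x with
  | zero => simp [EX]
  | succ n ih => simp [EX, ih]

open Classical in
/-- indicator of `[-a, a]` -/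
noncomputable def ind (a : ℕ) (z : ℤ) : ℝ≥0∞ := if |z| ≤ (a : ℤ) then 1 else 0

theorem ind_le_one (a : ℕ) (z : ℤ) : ind a z ≤ 1 := by
  unfold ind
  split_ifs <;> simp

theorem ind_of {a : ℕ} {z : ℤ} (h : |z| ≤ (a : ℤ)) : ind a z = 1 := by
  simp [ind, h]

theorem ind_of_not {a : ℕ} {z : ℤ} (h : ¬ |z| ≤ (a : ℤ)) : ind a z = 0 := by
  simp [ind, h]

theorem ind_mono {a b : ℕ} (h : a ≤ b) (z : ℤ) : ind a z ≤ ind b z := by
  by_cases hz : |z| ≤ (a : ℤ)
  · rw [ind_of hz, ind_of (le_trans hz (by exact_mod_cast h))]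
  · rw [ind_of_not hz]
    exact zero_le

theorem win_zero (p : ℤ → ℝ≥0∞) (a : ℕ) (x y : ℤ) : win p 0 a x y = p (y - x) := by
  simp [win, EX]

theorem win_succ (p : ℤ → ℝ≥0∞) (n a : ℕ) (x y : ℤ) :
    win p (n + 1) a x y = ∑' x' : ℤ, p (x' - x) * (ind a x' * win p n a x' y) := by
  unfold win
  rw [EX]
  refine tsum_congr fun x' => ?_
  congr 1
  have hl : ∀ l : List ℤ, (x' :: l).getLastD x = l.getLastD x' := fun l => by
    cases l <;> rfl
  simp only [hl]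
  by_cases h : |x'| ≤ (a : ℤ)
  · simp [ind, h]
  · simp [ind, h, EX_zero]

theorem win_ck (p : ℤ → ℝ≥0∞) (n m a : ℕ) (x y : ℤ) :
    win p (n + m + 1) a x y = ∑' u : ℤ, win p n a x u * (ind a u * win p m a u y) := by
  induction n generalizing x with
  | zero =>
    simp only [win_zero]
    rw [zero_add, win_succ]
  | succ n ih =>
    rw [show n + 1 + m + 1 = (n + m + 1) + 1 by ring, win_succ]
    simp_rw [ih, win_succ p n, ← ENNReal.tsum_mul_left, ← ENNReal.tsum_mul_right]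
    rw [ENNReal.tsum_comm]
    refine tsum_congr fun u => tsum_congr fun x' => by ring

theorem win_symm (p : ℤ → ℝ≥0∞) (hp : ∀ k, p (-k) = p k) (n a : ℕ) (x y : ℤ) :
    win p n a x y = win p n a y x := by
  induction n generalizing x y with
  | zero =>
    rw [win_zero, win_zero, ← hp]
    congr 1
    ring
  | succ n ih =>
    have h := win_ck p n 0 a y x
    rw [add_zero] at h
    rw [win_succ, h]
    refine tsum_congr fun u => ?_
    rw [win_zero, ih u y, ← hp (u - x), neg_sub]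
    ring

theorem win_mono (p : ℤ → ℝ≥0∞) (n : ℕ) {a b : ℕ} (h : a ≤ b) (x y : ℤ) :
    win p n a x y ≤ win p n b x y := by
  induction n generalizing x with
  | zero => rw [win_zero, win_zero]
  | succ n ih =>
    rw [win_succ, win_succ]
    exact ENNReal.tsum_le_tsum fun x' => by
      gcongr
      · exact ind_mono h x'
      · exact ih x'

theorem sk_conv (hA1 : TaskA1) (s r : ℝ≥0) (x y : ℤ) :
    ∑' x' : ℤ, sk s (x' - x) * sk r (y - x') = sk (s + r) (y - x) := by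
  rw [hA1.2.2.2 s r (y - x)]
  rw [← (Equiv.subRight x).tsum_eq (fun j => sk s j * sk r (y - x - j))]
  refine tsum_congr fun x' => ?_
  simp [Equiv.subRight]

theorem sk_sum (hA1 : TaskA1) (s : ℝ≥0) (x : ℤ) : ∑' x' : ℤ, sk s (x' - x) = 1 := by
  rw [← hA1.2.2.1 s, ← (Equiv.subRight x).tsum_eq (fun j => sk s j)]
  rfl

theorem sk_sum' (hA1 : TaskA1) (s : ℝ≥0) (x : ℤ) : ∑' x' : ℤ, sk s (x - x') = 1 := by
  rw [← sk_sum hA1 s x]
  refine tsum_congr fun x' => ?_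
  rw [← hA1.2.1 s (x - x'), neg_sub]

theorem win_le (hA1 : TaskA1) (s : ℝ≥0) (n a : ℕ) (x y : ℤ) :
    win (sk s) n a x y ≤ sk (((n + 1 : ℕ) : ℝ≥0) * s) (y - x) := by
  induction n generalizing x with
  | zero =>
    rw [win_zero]
    simp
  | succ n ih =>
    rw [win_succ]
    have h1 : (((n + 1 + 1 : ℕ) : ℝ≥0) * s) = s + ((n + 1 : ℕ) : ℝ≥0) * s := by
      push_cast
      ring
    rw [h1, ← sk_conv hA1]
    refine ENNReal.tsum_le_tsum fun x' => ?_
    gcongr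
    calc ind a x' * win (sk s) n a x' y ≤ 1 * win (sk s) n a x' y := by
          gcongr
          exact ind_le_one a x'
      _ = win (sk s) n a x' y := one_mul _
      _ ≤ _ := ih x'

noncomputable def rho (s : ℝ≥0) (θ : ℝ) : ℝ≥0∞ := ENNReal.ofReal (Real.exp (s * (Real.cosh θ - 1)))

noncomputable def hh (θ : ℝ) (a : ℕ) (x : ℤ) : ℝ≥0∞ :=
  ENNReal.ofReal (Real.exp (θ * ((x : ℝ) - a))) + ENNReal.ofReal (Real.exp (θ * (-(x : ℝ) - a)))

theorem one_le_rho (s : ℝ≥0) (θ : ℝ) : 1 ≤ rho s θ := by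
  unfold rho
  rw [ENNReal.one_le_ofReal, Real.one_le_exp_iff]
  have := Real.one_le_cosh θ
  exact mul_nonneg s.2 (by linarith)

theorem one_le_hh {θ : ℝ} (hθ : 0 ≤ θ) {a : ℕ} {x : ℤ} (hx : ¬ |x| ≤ (a : ℤ)) : 1 ≤ hh θ a x := by
  unfold hh
  rw [not_le] at hx
  have hx' : (a : ℝ) < |(x : ℝ)| := by exact_mod_cast hx
  rcases lt_abs.mp hx' with h | h
  · refine le_trans ?_ (le_add_of_nonneg_right zero_le)
    rw [ENNReal.one_le_ofReal, Real.one_le_exp_iff]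
    exact mul_nonneg hθ (by linarith)
  · refine le_trans ?_ (le_add_of_nonneg_left zero_le)
    rw [ENNReal.one_le_ofReal, Real.one_le_exp_iff]
    exact mul_nonneg hθ (by linarith)

theorem sk_exp (hA5 : TaskA5) (s : ℝ≥0) (θ b : ℝ) (x : ℤ) :
    ∑' x' : ℤ, sk s (x' - x) * ENNReal.ofReal (Real.exp (θ * x' + b)) =
      rho s θ * ENNReal.ofReal (Real.exp (θ * x + b)) := by
  have h1 := hA5 s θ
  unfold rho
  rw [← h1, ← ENNReal.tsum_mul_right,
    ← (Equiv.subRight x).tsum_eq (fun j : ℤ => sk s j * ENNReal.ofReal (Real.exp (θ * j)) *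
      ENNReal.ofReal (Real.exp (θ * x + b)))]
  refine tsum_congr fun x' => ?_
  simp only [Equiv.subRight_apply]
  rw [mul_assoc, ← ENNReal.ofReal_mul (Real.exp_pos _).le, ← Real.exp_add]
  congr 3
  push_cast
  ring

theorem sk_hh (hA5 : TaskA5) (s : ℝ≥0) (θ : ℝ) (a : ℕ) (x : ℤ) :
    ∑' x' : ℤ, sk s (x' - x) * hh θ a x' = rho s θ * hh θ a x := by
  unfold hh
  simp_rw [mul_add]
  rw [ENNReal.tsum_add]
  have h1 := sk_exp hA5 s θ (-(θ * a)) x
  have h2 := sk_exp hA5 s (-θ) (-(θ * a)) x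
  have h3 : rho s (-θ) = rho s θ := by
    unfold rho
    rw [Real.cosh_neg]
  rw [h3] at h2
  congr 1
  · rw [show θ * ((x : ℝ) - a) = θ * x + -(θ * a) by ring, ← h1]
    refine tsum_congr fun x' => ?_
    rw [show θ * ((x' : ℝ) - a) = θ * x' + -(θ * a) by ring]
  · rw [show θ * (-(x : ℝ) - a) = -θ * x + -(θ * a) by ring, ← h2]
    refine tsum_congr fun x' => ?_
    rw [show θ * (-(x' : ℝ) - a) = -θ * x' + -(θ * a) by ring]

/-- exponential bound for leaving `[-a, a]` -/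
theorem stay (hA1 : TaskA1) (hA5 : TaskA5) (s : ℝ≥0) {θ : ℝ} (hθ : 0 ≤ θ) (a n : ℕ) (x : ℤ) :
    1 ≤ ∑' z : ℤ, win (sk s) n a x z * ind a z + rho s θ ^ (n + 1) * hh θ a x := by
  induction n generalizing x with
  | zero =>
    rw [zero_add, pow_one, ← sk_hh hA5, ← ENNReal.tsum_add, ← sk_sum hA1 s x]
    refine ENNReal.tsum_le_tsum fun z => ?_
    rw [win_zero]
    by_cases hz : |z| ≤ (a : ℤ)
    · rw [ind_of hz, mul_one]
      exact le_add_of_nonneg_right zero_le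
    · refine le_trans ?_ (le_add_of_nonneg_left zero_le)
      exact le_mul_of_one_le_right zero_le (one_le_hh hθ hz)
  | succ n ih =>
    have h1 : ∑' z : ℤ, win (sk s) (n + 1) a x z * ind a z =
        ∑' x' : ℤ, sk s (x' - x) * (ind a x' * ∑' z : ℤ, win (sk s) n a x' z * ind a z) := by
      simp_rw [win_succ, ← ENNReal.tsum_mul_left, ← ENNReal.tsum_mul_right]
      rw [ENNReal.tsum_comm]
      refine tsum_congr fun u => tsum_congr fun x' => by ring
    rw [h1, pow_succ, mul_assoc, ← sk_hh hA5, ← ENNReal.tsum_mul_left, ← ENNReal.tsum_add,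
      ← sk_sum hA1 s x]
    refine ENNReal.tsum_le_tsum fun z => ?_
    have h2 : (1 : ℝ≥0∞) ≤ rho s θ ^ (n + 1) := one_le_pow_of_one_le' (one_le_rho s θ) _
    rw [show rho s θ ^ (n + 1) * (sk s (z - x) * hh θ a z) =
      sk s (z - x) * (rho s θ ^ (n + 1) * hh θ a z) by ring, ← mul_add]
    refine le_mul_of_one_le_right zero_le ?_
    by_cases hz : |z| ≤ (a : ℤ)
    · rw [ind_of hz, one_mul]
      exact ih z
    · refine le_trans ?_ (le_add_of_nonneg_left zero_le)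
      exact one_le_mul_of_one_le_of_one_le h2 (one_le_hh hθ hz)

theorem tsum_sub_le {f g : ℤ → ℝ≥0∞} {B : ℝ≥0∞} (hg : ∑' z, g z ≠ ∞) (hgf : ∀ z, g z ≤ f z)
    (h : ∑' z, f z ≤ ∑' z, g z + B) : ∑' z, (f z - g z) ≤ B := by
  have h1 : ∑' z, g z + ∑' z, (f z - g z) = ∑' z, f z := by
    rw [← ENNReal.tsum_add]
    exact tsum_congr fun z => add_tsub_cancel_of_le (hgf z)
  rw [← h1] at h
  exact (ENNReal.add_le_add_iff_left hg).mp h

/-- the free kernel is at most the killed kernel plus an exit term -/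
theorem key (hA1 : TaskA1) (hA5 : TaskA5) (s : ℝ≥0) {θ : ℝ} (hθ : 0 ≤ θ) (a n1 n2 : ℕ) (x u : ℤ)
    (M1 M2 : ℝ≥0∞) (hM1 : ∀ z, sk (((n1 + 1 : ℕ) : ℝ≥0) * s) z ≤ M1)
    (hM2 : ∀ z, sk (((n2 + 1 : ℕ) : ℝ≥0) * s) z ≤ M2) :
    sk (((n1 + 1 : ℕ) : ℝ≥0) * s + ((n2 + 1 : ℕ) : ℝ≥0) * s) (u - x) ≤
      win (sk s) (n1 + n2 + 1) a x u + (M2 * (rho s θ ^ (n1 + 1) * hh θ a x) +
        M1 * (rho s θ ^ (n2 + 1) * hh θ a u)) := by
  have hw1 : ∀ z, win (sk s) n1 a x z * ind a z ≤ sk (((n1 + 1 : ℕ) : ℝ≥0) * s) (z - x) := by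
    intro z
    calc win (sk s) n1 a x z * ind a z ≤ win (sk s) n1 a x z * 1 := by
          gcongr
          exact ind_le_one a z
      _ = win (sk s) n1 a x z := mul_one _
      _ ≤ _ := win_le hA1 s n1 a x z
  have hw2 : ∀ z, win (sk s) n2 a z u ≤ sk (((n2 + 1 : ℕ) : ℝ≥0) * s) (u - z) := fun z =>
    win_le hA1 s n2 a z u
  have hf1 : ∑' z, win (sk s) n1 a x z * ind a z ≠ ∞ := by
    refine ne_top_of_le_ne_top ENNReal.one_ne_top ?_
    rw [← sk_sum hA1 (((n1 + 1 : ℕ) : ℝ≥0) * s) x]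
    exact ENNReal.tsum_le_tsum hw1
  have hf2 : ∑' z, win (sk s) n2 a z u ≠ ∞ := by
    refine ne_top_of_le_ne_top ENNReal.one_ne_top ?_
    rw [← sk_sum' hA1 (((n2 + 1 : ℕ) : ℝ≥0) * s) u]
    exact ENNReal.tsum_le_tsum hw2
  have he1 : ∑' z, (sk (((n1 + 1 : ℕ) : ℝ≥0) * s) (z - x) - win (sk s) n1 a x z * ind a z) ≤
      rho s θ ^ (n1 + 1) * hh θ a x := by
    refine tsum_sub_le hf1 hw1 ?_
    rw [sk_sum hA1]
    exact stay hA1 hA5 s hθ a n1 x
  have he2 : ∑' z, (sk (((n2 + 1 : ℕ) : ℝ≥0) * s) (u - z) - win (sk s) n2 a z u) ≤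
      rho s θ ^ (n2 + 1) * hh θ a u := by
    refine tsum_sub_le hf2 hw2 ?_
    rw [sk_sum' hA1]
    refine le_trans (stay hA1 hA5 s hθ a n2 u) ?_
    gcongr with z
    rw [win_symm (sk s) (hA1.2.1 s) n2 a z u]
    calc win (sk s) n2 a u z * ind a z ≤ win (sk s) n2 a u z * 1 := by
          gcongr
          exact ind_le_one a z
      _ = win (sk s) n2 a u z := mul_one _
  rw [← sk_conv hA1, win_ck]
  calc ∑' z, sk (((n1 + 1 : ℕ) : ℝ≥0) * s) (z - x) * sk (((n2 + 1 : ℕ) : ℝ≥0) * s) (u - z)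
      ≤ ∑' z, (win (sk s) n1 a x z * (ind a z * win (sk s) n2 a z u) +
          (M2 * (sk (((n1 + 1 : ℕ) : ℝ≥0) * s) (z - x) - win (sk s) n1 a x z * ind a z) +
          M1 * (sk (((n2 + 1 : ℕ) : ℝ≥0) * s) (u - z) - win (sk s) n2 a z u))) := by
        refine ENNReal.tsum_le_tsum fun z => ?_
        have h1 : sk (((n1 + 1 : ℕ) : ℝ≥0) * s) (z - x) ≤ win (sk s) n1 a x z * ind a z +
          (sk (((n1 + 1 : ℕ) : ℝ≥0) * s) (z - x) - win (sk s) n1 a x z * ind a z) :=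
          le_add_tsub
        have h2 : sk (((n2 + 1 : ℕ) : ℝ≥0) * s) (u - z) ≤ win (sk s) n2 a z u +
          (sk (((n2 + 1 : ℕ) : ℝ≥0) * s) (u - z) - win (sk s) n2 a z u) :=
          le_add_tsub
        calc sk (((n1 + 1 : ℕ) : ℝ≥0) * s) (z - x) * sk (((n2 + 1 : ℕ) : ℝ≥0) * s) (u - z)
            ≤ (win (sk s) n1 a x z * ind a z +
              (sk (((n1 + 1 : ℕ) : ℝ≥0) * s) (z - x) - win (sk s) n1 a x z * ind a z)) *
              sk (((n2 + 1 : ℕ) : ℝ≥0) * s) (u - z) := by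
              gcongr
          _ = (win (sk s) n1 a x z * ind a z) * sk (((n2 + 1 : ℕ) : ℝ≥0) * s) (u - z) +
              (sk (((n1 + 1 : ℕ) : ℝ≥0) * s) (z - x) - win (sk s) n1 a x z * ind a z) *
              sk (((n2 + 1 : ℕ) : ℝ≥0) * s) (u - z) := by
              rw [add_mul]
          _ ≤ (win (sk s) n1 a x z * ind a z) * (win (sk s) n2 a z u +
              (sk (((n2 + 1 : ℕ) : ℝ≥0) * s) (u - z) - win (sk s) n2 a z u)) +
              (sk (((n1 + 1 : ℕ) : ℝ≥0) * s) (z - x) - win (sk s) n1 a x z * ind a z) * M2 := by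
              gcongr
              exact hM2 _
          _ = win (sk s) n1 a x z * (ind a z * win (sk s) n2 a z u) +
              ((win (sk s) n1 a x z * ind a z) *
              (sk (((n2 + 1 : ℕ) : ℝ≥0) * s) (u - z) - win (sk s) n2 a z u) +
              (sk (((n1 + 1 : ℕ) : ℝ≥0) * s) (z - x) - win (sk s) n1 a x z * ind a z) * M2) := by
              rw [mul_add]
              ring
          _ ≤ win (sk s) n1 a x z * (ind a z * win (sk s) n2 a z u) +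
              (M1 * (sk (((n2 + 1 : ℕ) : ℝ≥0) * s) (u - z) - win (sk s) n2 a z u) +
              (sk (((n1 + 1 : ℕ) : ℝ≥0) * s) (z - x) - win (sk s) n1 a x z * ind a z) * M2) := by
              gcongr
              exact le_trans (hw1 z) (hM1 _)
          _ = _ := by ring
    _ = ∑' z, win (sk s) n1 a x z * (ind a z * win (sk s) n2 a z u) +
          (M2 * ∑' z, (sk (((n1 + 1 : ℕ) : ℝ≥0) * s) (z - x) - win (sk s) n1 a x z * ind a z) +
          M1 * ∑' z, (sk (((n2 + 1 : ℕ) : ℝ≥0) * s) (u - z) - win (sk s) n2 a z u)) := by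
        rw [ENNReal.tsum_add, ENNReal.tsum_add, ENNReal.tsum_mul_left, ENNReal.tsum_mul_left]
    _ ≤ _ := by
        gcongr

theorem cosh_bound {θ : ℝ} (h0 : 0 ≤ θ) (h1 : θ ≤ 1) : Real.cosh θ - 1 ≤ θ ^ 2 := by
  have h := Real.cosh_le_exp_half_sq θ
  have hy : θ ^ 2 / 2 ≤ 1 / 2 := by nlinarith
  have hy0 : 0 ≤ θ ^ 2 / 2 := by positivity
  have h2 : Real.exp (θ ^ 2 / 2) ≤ 1 / (1 - θ ^ 2 / 2) :=
    Real.exp_bound_div_one_sub_of_interval hy0 (by linarith)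
  have h3 : 1 / (1 - θ ^ 2 / 2) ≤ 1 + θ ^ 2 := by
    rw [div_le_iff₀ (by linarith)]
    nlinarith
  linarith

theorem rho_pow (s : ℝ≥0) (θ : ℝ) (n : ℕ) :
    rho s θ ^ n = ENNReal.ofReal (Real.exp (n * s * (Real.cosh θ - 1))) := by
  unfold rho
  rw [← ENNReal.ofReal_pow (Real.exp_pos _).le, ← Real.exp_nat_mul]
  congr 2
  ring

theorem sqrt_lower {b t R : ℝ} (hb : 0 ≤ b) (hR : 0 ≤ R) (h : b * R ^ 2 ≤ t) : √b * R ≤ √t := by
  rw [show √b * R = √(b * R ^ 2) by rw [Real.sqrt_mul hb, Real.sqrt_sq hR]]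
  exact Real.sqrt_le_sqrt h

theorem sqrt_upper {b t R : ℝ} (hb : 0 ≤ b) (hR : 0 ≤ R) (h : t ≤ b * R ^ 2) : √t ≤ √b * R := by
  rw [show √b * R = √(b * R ^ 2) by rw [Real.sqrt_mul hb, Real.sqrt_sq hR]]
  exact Real.sqrt_le_sqrt h

theorem rho_le {κ : ℝ} {R n : ℕ} {s : ℝ≥0} (hR : 1 ≤ R) (h : (n : ℝ) * s ≤ κ * (R : ℝ) ^ 2) :
    rho s (1 / R) ^ n ≤ ENNReal.ofReal (Real.exp κ) := by
  rw [rho_pow]
  apply ENNReal.ofReal_le_ofReal
  rw [Real.exp_le_exp]
  have hR' : (1 : ℝ) ≤ R := by exact_mod_cast hR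
  have h0 : (0 : ℝ) ≤ 1 / R := by positivity
  have h1 : (1 : ℝ) / R ≤ 1 := by
    rw [div_le_one (by linarith)]
    exact hR'
  have h2 := cosh_bound h0 h1
  have h3 : (0 : ℝ) ≤ Real.cosh (1 / (R : ℝ)) - 1 := by linarith [Real.one_le_cosh (1 / (R : ℝ))]
  calc (n : ℝ) * s * (Real.cosh (1 / R) - 1) ≤ κ * (R : ℝ) ^ 2 * (Real.cosh (1 / R) - 1) :=
        mul_le_mul_of_nonneg_right h h3
    _ ≤ κ * (R : ℝ) ^ 2 * (1 / (R : ℝ)) ^ 2 := by
        apply mul_le_mul_of_nonneg_left h2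
        exact le_trans (by positivity) h
    _ = κ := by
        field_simp

theorem hh_le {R K : ℕ} {x : ℤ} (hR : 1 ≤ R) (hx : |x| ≤ 2 * (R : ℤ)) :
    hh (1 / R) (K * R) x ≤ ENNReal.ofReal (2 * Real.exp (2 - K)) := by
  unfold hh
  rw [← ENNReal.ofReal_add (Real.exp_pos _).le (Real.exp_pos _).le]
  apply ENNReal.ofReal_le_ofReal
  have hR' : (1 : ℝ) ≤ R := by exact_mod_cast hR
  have hx' : |(x : ℝ)| ≤ 2 * R := by exact_mod_cast hx
  obtain ⟨hx1, hx2⟩ := abs_le.mp hx'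
  have h1 : (1 : ℝ) / R * ((x : ℝ) - ((K * R : ℕ) : ℝ)) ≤ 2 - K := by
    rw [div_mul_eq_mul_div, one_mul, div_le_iff₀ (by linarith)]
    push_cast
    nlinarith
  have h2 : (1 : ℝ) / R * (-(x : ℝ) - ((K * R : ℕ) : ℝ)) ≤ 2 - K := by
    rw [div_mul_eq_mul_div, one_mul, div_le_iff₀ (by linarith)]
    push_cast
    nlinarith
  have h3 := Real.exp_le_exp.mpr h1
  have h4 := Real.exp_le_exp.mpr h2
  linarith

theorem lower (hA1 : TaskA1) (hA3 : TaskA3) (hA4 : TaskA4) (hA5 : TaskA5) (κ : ℝ≥0)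
    (hκ : 0 < κ) : ∃ K : ℕ, 2 ≤ K ∧ ∃ c1 : ℝ, 0 < c1 ∧ ∃ R0 : ℕ, 1 ≤ R0 ∧ ∀ R : ℕ, R0 ≤ R →
      ∀ T : ℝ≥0, (R : ℝ≥0) ^ 2 ≤ T → T ≤ 2 * (R : ℝ≥0) ^ 2 → ∀ m : ℕ, 1 ≤ m →
      ∀ x u : ℤ, |x| ≤ (R : ℤ) → |u| ≤ 2 * (R : ℤ) →
      ENNReal.ofReal (c1 / R) ≤ win (sk (κ * (T / (2 * m : ℕ)))) (m - 1) (K * R) x u := by
  have hκ' : (0 : ℝ) < κ := by exact_mod_cast hκ
  obtain ⟨C3, hC3⟩ := hA3
  obtain ⟨c4, hc4, s0, hs0, h4⟩ := hA4 (3 / √((κ : ℝ) / 2))
  have hs6 : 0 < √((κ : ℝ) / 6) := Real.sqrt_pos.mpr (by positivity)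
  have hs2 : 0 < √((κ : ℝ) / 2) := Real.sqrt_pos.mpr (by positivity)
  have hs1 : 0 < √(κ : ℝ) := Real.sqrt_pos.mpr hκ'
  obtain ⟨c1, hc1⟩ : ∃ c1 : ℝ, c1 = c4 / (2 * √(κ : ℝ)) := ⟨_, rfl⟩
  have hc1pos : 0 < c1 := by rw [hc1]; positivity
  obtain ⟨Cs, hCs⟩ : ∃ Cs : ℝ, Cs = C3 / √((κ : ℝ) / 6) := ⟨_, rfl⟩
  have hCs0 : 0 ≤ Cs := by rw [hCs]; positivity
  -- choice of K
  obtain ⟨K0, hK0⟩ := exists_nat_gt (Real.log ((Cs * 4 * Real.exp (κ + 2) + 1) / c1))
  have hK : Cs * 4 * Real.exp (κ + 2) * Real.exp (-((K0 + 2 : ℕ) : ℝ)) ≤ c1 := by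
    have hpos : 0 < (Cs * 4 * Real.exp (κ + 2) + 1) / c1 := by positivity
    have h1 : (Cs * 4 * Real.exp (κ + 2) + 1) / c1 < Real.exp ((K0 + 2 : ℕ) : ℝ) := by
      rw [← Real.log_lt_iff_lt_exp hpos]
      push_cast
      linarith
    rw [Real.exp_neg, ← div_eq_mul_inv, div_le_iff₀ (Real.exp_pos _)]
    rw [div_lt_iff₀ hc1pos] at h1
    linarith
  obtain ⟨R1, hR1⟩ := exists_nat_gt ((s0 : ℝ) * 2 / κ)
  refine ⟨K0 + 2, by omega, c1, hc1pos, R1 + 1, by omega, ?_⟩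
  intro R hR T hT1 hT2 m hm x u hx hu
  have hRpos : 1 ≤ R := by omega
  have hR' : (1 : ℝ) ≤ R := by exact_mod_cast hRpos
  have hm' : (1 : ℝ) ≤ m := by exact_mod_cast hm
  have hT1' : (R : ℝ) ^ 2 ≤ T := by exact_mod_cast hT1
  have hT2' : (T : ℝ) ≤ 2 * (R : ℝ) ^ 2 := by exact_mod_cast hT2
  obtain ⟨s, hs⟩ : ∃ s : ℝ≥0, s = κ * (T / (2 * m : ℕ)) := ⟨_, rfl⟩
  rw [← hs]
  have hsr : (s : ℝ) = κ * T / (2 * m) := by
    rw [hs]
    push_cast
    ring
  have hmsr : (m : ℝ) * s = κ * T / 2 := by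
    rw [hsr]
    field_simp
  have hspos : 0 < s := by
    rw [← NNReal.coe_pos, hsr]
    have : (0 : ℝ) < T := by nlinarith
    positivity
  -- free kernel
  have hfree : ENNReal.ofReal (2 * c1 / R) ≤ sk ((m : ℝ≥0) * s) (u - x) := by
    have hms : (((m : ℝ≥0) * s : ℝ≥0) : ℝ) = κ * T / 2 := by
      push_cast
      exact hmsr
    have h5 : s0 ≤ (m : ℝ≥0) * s := by
      rw [← NNReal.coe_le_coe, hms]
      rw [div_lt_iff₀ hκ'] at hR1
      have hRR1 : (R1 : ℝ) ≤ R := by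
        have : R1 ≤ R := by omega
        exact_mod_cast this
      have hRR : (R : ℝ) ≤ (R : ℝ) ^ 2 := by nlinarith
      have : (R1 : ℝ) * κ ≤ κ * T := by
        rw [mul_comm]
        apply mul_le_mul_of_nonneg_left _ hκ'.le
        linarith
      linarith
    have h6 : |((u - x : ℤ) : ℝ)| ≤ 3 / √((κ : ℝ) / 2) * √(((m : ℝ≥0) * s : ℝ≥0) : ℝ) := by
      rw [hms]
      have h7 : √((κ : ℝ) / 2) * R ≤ √(κ * T / 2) := by
        apply sqrt_lower (by positivity) (by linarith)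
        nlinarith
      have h8 : |((u - x : ℤ) : ℝ)| ≤ 3 * R := by
        have : |u - x| ≤ 3 * (R : ℤ) := by
          calc |u - x| ≤ |u| + |x| := abs_sub _ _
            _ ≤ 3 * (R : ℤ) := by linarith
        exact_mod_cast this
      rw [div_mul_eq_mul_div, le_div_iff₀ hs2]
      calc |((u - x : ℤ) : ℝ)| * √((κ : ℝ) / 2) ≤ 3 * R * √((κ : ℝ) / 2) :=
            mul_le_mul_of_nonneg_right h8 hs2.le
        _ = 3 * (√((κ : ℝ) / 2) * R) := by ring
        _ ≤ 3 * √(κ * T / 2) := by linarith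
    refine le_trans ?_ (h4 _ h5 _ h6)
    rw [hms]
    apply ENNReal.ofReal_le_ofReal
    have h7 : √(κ * T / 2) ≤ √(κ : ℝ) * R := by
      apply sqrt_upper hκ'.le (by linarith)
      nlinarith
    have h8 : 0 < √(κ * T / 2) := by
      apply Real.sqrt_pos.mpr
      have : (0 : ℝ) < T := by nlinarith
      positivity
    rw [hc1]
    rw [div_le_div_iff₀ (by linarith) h8]
    have h9 : 2 * (c4 / (2 * √(κ : ℝ))) * √(κ * T / 2) ≤
        2 * (c4 / (2 * √(κ : ℝ))) * (√(κ : ℝ) * R) :=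
      mul_le_mul_of_nonneg_left h7 (by positivity)
    refine le_trans h9 (le_of_eq ?_)
    field_simp
  rcases Nat.lt_or_ge m 2 with hm2 | hm2
  · -- m = 1
    have hm1 : m = 1 := by omega
    subst hm1
    rw [Nat.sub_self, win_zero]
    rw [Nat.cast_one, one_mul] at hfree
    refine le_trans (ENNReal.ofReal_le_ofReal ?_) hfree
    apply div_le_div_of_nonneg_right _ (by linarith)
    linarith
  · -- m ≥ 2
    obtain ⟨n1, hn1⟩ : ∃ n1, m / 2 = n1 + 1 := ⟨m / 2 - 1, by omega⟩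
    obtain ⟨n2, hn2⟩ : ∃ n2, m - m / 2 = n2 + 1 := ⟨m - m / 2 - 1, by omega⟩
    have hn12 : n1 + n2 + 1 = m - 1 := by omega
    have hm12 : (n1 + 1) + (n2 + 1) = m := by omega
    have hsum : ((n1 + 1 : ℕ) : ℝ≥0) * s + ((n2 + 1 : ℕ) : ℝ≥0) * s = (m : ℝ≥0) * s := by
      rw [← add_mul, ← Nat.cast_add, hm12]
    have hsup : ∀ n : ℕ, m ≤ 3 * (n + 1) → ∀ z,
        sk (((n + 1 : ℕ) : ℝ≥0) * s) z ≤ ENNReal.ofReal (Cs / R) := by
      intro n hn z
      refine le_trans (hC3 _ z (by positivity)) ?_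
      apply ENNReal.ofReal_le_ofReal
      have hn' : (m : ℝ) ≤ 3 * ((n + 1 : ℕ) : ℝ) := by exact_mod_cast hn
      have h7 : √((κ : ℝ) / 6) * R ≤ √((((n + 1 : ℕ) : ℝ≥0) * s : ℝ≥0) : ℝ) := by
        apply sqrt_lower (by positivity) (by linarith)
        rw [NNReal.coe_mul, NNReal.coe_natCast]
        have h8 : (m : ℝ) * s ≤ 3 * ((n + 1 : ℕ) : ℝ) * s :=
          mul_le_mul_of_nonneg_right hn' s.2
        rw [hmsr] at h8
        nlinarith
      rw [hCs, div_div]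
      apply div_le_div_of_nonneg_left C3.2 (by positivity) h7
    have hexit : ∀ n : ℕ, n + 1 ≤ m → ∀ v : ℤ, |v| ≤ 2 * (R : ℤ) →
        ENNReal.ofReal (Cs / R) * (rho s (1 / R) ^ (n + 1) * hh (1 / R) ((K0 + 2) * R) v) ≤
          ENNReal.ofReal (c1 / R / 2) := by
      intro n hn v hv
      have hn' : ((n + 1 : ℕ) : ℝ) ≤ m := by exact_mod_cast hn
      have h7 : ((n + 1 : ℕ) : ℝ) * s ≤ κ * (R : ℝ) ^ 2 := by
        have h8 : ((n + 1 : ℕ) : ℝ) * s ≤ m * s := mul_le_mul_of_nonneg_right hn' s.2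
        rw [hmsr] at h8
        nlinarith
      have h9 := rho_le (κ := κ) hRpos h7
      have h10 := hh_le (K := K0 + 2) hRpos hv
      calc ENNReal.ofReal (Cs / R) * (rho s (1 / R) ^ (n + 1) * hh (1 / R) ((K0 + 2) * R) v)
          ≤ ENNReal.ofReal (Cs / R) * (ENNReal.ofReal (Real.exp κ) *
              ENNReal.ofReal (2 * Real.exp (2 - ((K0 + 2 : ℕ) : ℝ)))) := by
            gcongr
        _ = ENNReal.ofReal (Cs / R * (Real.exp κ * (2 * Real.exp (2 - ((K0 + 2 : ℕ) : ℝ))))) := by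
            rw [← ENNReal.ofReal_mul (Real.exp_pos _).le, ← ENNReal.ofReal_mul (by positivity)]
        _ ≤ ENNReal.ofReal (c1 / R / 2) := by
            apply ENNReal.ofReal_le_ofReal
            rw [div_div, div_mul_eq_mul_div, div_le_div_iff₀ (by linarith) (by positivity)]
            have h11 : Cs * (Real.exp κ * (2 * Real.exp (2 - ((K0 + 2 : ℕ) : ℝ)))) * 2 ≤ c1 := by
              refine le_trans (le_of_eq ?_) hK
              rw [show (2 : ℝ) - ((K0 + 2 : ℕ) : ℝ) = 2 + -((K0 + 2 : ℕ) : ℝ) by ring,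
                Real.exp_add, Real.exp_add]
              ring
            nlinarith
    have hkey := key hA1 hA5 s (θ := 1 / R) (by positivity) ((K0 + 2) * R) n1 n2 x u
      (ENNReal.ofReal (Cs / R)) (ENNReal.ofReal (Cs / R)) (hsup n1 (by omega))
      (hsup n2 (by omega))
    rw [hsum, hn12] at hkey
    have hx2 : |x| ≤ 2 * (R : ℤ) := by
      have : (0 : ℤ) ≤ R := by positivity
      linarith
    have h12 : ENNReal.ofReal (Cs / R) *
        (rho s (1 / R) ^ (n1 + 1) * hh (1 / R) ((K0 + 2) * R) x) +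
        ENNReal.ofReal (Cs / R) * (rho s (1 / R) ^ (n2 + 1) * hh (1 / R) ((K0 + 2) * R) u) ≤
        ENNReal.ofReal (c1 / R) := by
      refine le_trans (add_le_add (hexit n1 (by omega) x hx2) (hexit n2 (by omega) u hu)) ?_
      rw [← ENNReal.ofReal_add (by positivity) (by positivity)]
      apply ENNReal.ofReal_le_ofReal
      linarith
    have h13 : ENNReal.ofReal (c1 / R) + ENNReal.ofReal (c1 / R) ≤
        win (sk s) (m - 1) ((K0 + 2) * R) x u + ENNReal.ofReal (c1 / R) := by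
      rw [← ENNReal.ofReal_add (by positivity) (by positivity)]
      rw [show c1 / (R : ℝ) + c1 / R = 2 * c1 / R by ring]
      exact le_trans hfree (le_trans hkey (add_le_add_right h12 _))
    exact (ENNReal.add_le_add_iff_right ENNReal.ofReal_ne_top).mp h13

theorem taskB : TaskB := by
  intro hA1 hA3 hA4 hA5 κ hκ
  have hκ' : (0 : ℝ) < κ := by exact_mod_cast hκ
  obtain ⟨K, hK2, c1, hc1, R0, hR0, hlow⟩ := lower hA1 hA3 hA4 hA5 κ hκ
  obtain ⟨C3, hC3⟩ := hA3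
  have hs1 : 0 < √(κ : ℝ) := Real.sqrt_pos.mpr hκ'
  have hC3' : (0 : ℝ) < (C3 : ℝ) + 1 := by positivity
  obtain ⟨c, hc⟩ : ∃ c : ℝ, c = c1 ^ 2 * √(κ : ℝ) / (C3 + 1) := ⟨_, rfl⟩
  have hcpos : 0 < c := by rw [hc]; positivity
  refine ⟨K, by omega, c.toNNReal, Real.toNNReal_pos.mpr hcpos, R0, hR0, ?_⟩
  intro R hR T hT1 hT2 m hm x y hx hy
  have hlow' := hlow R hR T hT1 hT2 m hm
  have hRpos : 1 ≤ R := by omega
  have hR' : (1 : ℝ) ≤ R := by exact_mod_cast hRpos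
  have hm' : (1 : ℝ) ≤ m := by exact_mod_cast hm
  have hT1' : (R : ℝ) ^ 2 ≤ T := by exact_mod_cast hT1
  have hT0 : (0 : ℝ) < T := by nlinarith
  generalize hs : κ * (T / (2 * m : ℕ)) = s at *
  have hsr : (s : ℝ) = κ * T / (2 * m) := by
    rw [← hs]
    push_cast
    ring
  -- upper bound
  have hup : win (sk s) (2 * m - 1) R x y ≤ ENNReal.ofReal ((C3 + 1) / (√(κ : ℝ) * R)) := by
    refine le_trans (win_le hA1 s _ R x y) ?_
    have h1 : 2 * m - 1 + 1 = 2 * m := by omega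
    rw [h1]
    have h2 : ((((2 * m : ℕ) : ℝ≥0) * s : ℝ≥0) : ℝ) = κ * T := by
      rw [NNReal.coe_mul, NNReal.coe_natCast, hsr]
      push_cast
      field_simp
    have h3 : 0 < (((2 * m : ℕ) : ℝ≥0) * s) := by
      rw [← NNReal.coe_pos, h2]
      positivity
    refine le_trans (hC3 _ _ h3) ?_
    rw [h2]
    apply ENNReal.ofReal_le_ofReal
    have h4 : √(κ : ℝ) * R ≤ √(κ * T) := by
      apply sqrt_lower hκ'.le (by linarith)
      exact mul_le_mul_of_nonneg_left hT1' hκ'.le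
    apply div_le_div₀ hC3'.le (by linarith) (by positivity) h4
  -- lower bound
  have hmm : (m - 1) + (m - 1) + 1 = 2 * m - 1 := by omega
  have hle : R ≤ K * R := by nlinarith
  have hKR : win (sk s) (2 * m - 1) R x y + (R : ℝ≥0∞) * ENNReal.ofReal (c1 / R) ^ 2 ≤
      win (sk s) (2 * m - 1) (K * R) x y := by
    rw [← hmm, win_ck, win_ck]
    have h1 : (R : ℝ≥0∞) * ENNReal.ofReal (c1 / R) ^ 2 ≤
        ∑' u : ℤ, (if u ∈ Finset.Ioc (R : ℤ) (2 * R) then ENNReal.ofReal (c1 / R) ^ 2 else 0) := by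
      refine le_trans ?_ (ENNReal.sum_le_tsum (Finset.Ioc (R : ℤ) (2 * R)))
      rw [Finset.sum_ite_mem, Finset.inter_self, Finset.sum_const, Int.card_Ioc, nsmul_eq_mul]
      rw [show (2 * (R : ℤ) - R).toNat = R by omega]
    refine le_trans (add_le_add_right h1 _) ?_
    rw [← ENNReal.tsum_add]
    refine ENNReal.tsum_le_tsum fun u => ?_
    by_cases hu : u ∈ Finset.Ioc (R : ℤ) (2 * R)
    · rw [if_pos hu]
      rw [Finset.mem_Ioc] at hu
      have hu0 : ¬ |u| ≤ (R : ℤ) := by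
        rw [abs_of_nonneg (by omega)]
        omega
      have hu1 : |u| ≤ 2 * (R : ℤ) := by
        rw [abs_of_nonneg (by omega)]
        omega
      have hu2 : |u| ≤ ((K * R : ℕ) : ℤ) := by
        push_cast
        refine le_trans hu1 ?_
        have : (2 : ℤ) ≤ K := by exact_mod_cast hK2
        have : (0 : ℤ) ≤ R := by positivity
        nlinarith
      rw [ind_of_not hu0, ind_of hu2, zero_mul, mul_zero, zero_add, one_mul, pow_two]
      have h2 := hlow' x u hx hu1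
      have h3 := hlow' y u hy hu1
      rw [win_symm (sk s) (hA1.2.1 s) (m - 1) (K * R) u y]
      exact mul_le_mul' h2 h3
    · rw [if_neg hu, add_zero]
      gcongr
      · exact win_mono _ _ hle _ _
      · exact ind_mono hle u
      · exact win_mono _ _ hle _ _
  refine le_trans ?_ hKR
  rw [mul_add, mul_one]
  refine add_le_add_right ?_ _
  calc win (sk s) (2 * m - 1) R x y * (c.toNNReal : ℝ≥0∞)
      ≤ ENNReal.ofReal ((C3 + 1) / (√(κ : ℝ) * R)) * ENNReal.ofReal c := by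
        gcongr
        exact le_rfl
    _ = ENNReal.ofReal ((C3 + 1) / (√(κ : ℝ) * R) * c) := by
        rw [← ENNReal.ofReal_mul (by positivity)]
    _ = ENNReal.ofReal (R * (c1 / R) ^ 2) := by
        congr 1
        rw [hc]
        field_simp
    _ = (R : ℝ≥0∞) * ENNReal.ofReal (c1 / R) ^ 2 := by
        rw [ENNReal.ofReal_mul (by linarith), ENNReal.ofReal_natCast,
          ENNReal.ofReal_pow (by positivity)]

end Pool.Agent.H996R3.MTB
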